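import Pool.Agent.Helper68_BSE.Kit

/-!
# MP_3b0ba7_pr, stage 3: row CNB (helper68)
-/

set_option autoImplicit false

namespace Pool.Agent.BSE.H68

open Finset

variable {n : ℕ}

theorem cn1 {φ : Fin n → Fin n → Fin n → ℝ} (h : Mix3 φ) (y z : Fin n) (hyz : y ≠ z) :
    ∑ x, nF φ x y z = (nF φ y z z + nF φ z y y) / 2 := by
  have h0 := h.2.2.1 y z
  have h1 : ∀ x : Fin n, φ x y z = nF φ x y z + (if x = y then nF φ y y z else 0) +
      (if x = z then nF φ z y z else 0) := by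
    intro x
    rw [← m6_nF φ x y z]
    unfold m6
    by_cases a1 : x = y
    · subst a1
      simp [hyz]
      ring
    · by_cases a3 : x = z
      · subst a3
        simp [hyz, a1]
        ring
      · simp [a1, a3, hyz]
  rw [sum_congr rfl fun x _ => h1 x, sum_add_distrib, sum_add_distrib, sum_ite_eq', sum_ite_eq',
    if_pos (mem_univ _), if_pos (mem_univ _), nF_xxz h y z, nF_xzx h z y] at h0
  linarith

theorem cn2 {φ : Fin n → Fin n → Fin n → ℝ} (h : Mix3 φ) (y : Fin n) :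
    ∑ x, nF φ x y y = 0 := by
  have h0 := h.2.2.1 y y
  have h1 : ∀ x : Fin n, φ x y y = 2 * nF φ x y y := by
    intro x
    rw [← m6_nF φ x y y]
    unfold m6
    by_cases a1 : x = y
    · subst a1
      rw [nF_diag h x]
      ring
    · simp only [a1, if_false, if_true, false_and]
      ring
  rw [sum_congr rfl fun x _ => h1 x, ← mul_sum] at h0
  linarith

theorem cn3a {φ : Fin n → Fin n → Fin n → ℝ} (h : Mix3 φ) (y z : Fin n) (hyz : y ≠ z) :
    ∑ x, nF φ y x z = nF φ z y y / 2 - nF φ y z z := by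
  have h0 := h.2.2.2 y z
  have h1 : ∀ x : Fin n, φ y x z = nF φ y x z + (if x = y then nF φ y y z else 0) +
      (if x = z then nF φ y z z else 0) := by
    intro x
    rw [← m6_nF φ y x z]
    unfold m6
    by_cases a1 : x = y
    · subst a1
      simp [hyz]
      ring
    · by_cases a3 : x = z
      · subst a3
        simp [hyz, a1]
        ring
      · have a1' : y ≠ x := fun h2 => a1 h2.symm
        simp [a1, a1', a3, hyz]
  rw [sum_congr rfl fun x _ => h1 x, sum_add_distrib, sum_add_distrib, sum_ite_eq', sum_ite_eq',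
    if_pos (mem_univ _), if_pos (mem_univ _), nF_xxz h y z] at h0
  linarith

theorem cn3 {φ : Fin n → Fin n → Fin n → ℝ} (h : Mix3 φ) (y z : Fin n) :
    ∑ x, (nF φ y x z - nF φ z x y) = -(3 / 2) * (nF φ y z z - nF φ z y y) := by
  by_cases hyz : y = z
  · subst hyz
    simp
  · rw [sum_sub_distrib, cn3a h y z hyz, cn3a h z y (fun h2 => hyz h2.symm)]
    ring

theorem cn4 {φ : Fin n → Fin n → Fin n → ℝ} (h : Mix3 φ) (B : Finset (Fin n)) :
    ∑ w ∈ Bᶜ, ∑ x ∈ B, ∑ y ∈ B, m2 x y * nF φ w x y = 0 := by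
  have hsplit : ∑ w ∈ Bᶜ, ∑ x ∈ B, ∑ y ∈ B, m2 x y * nF φ w x y =
      ∑ w, ∑ x ∈ B, ∑ y ∈ B, m2 x y * nF φ w x y -
        ∑ w ∈ B, ∑ x ∈ B, ∑ y ∈ B, m2 x y * nF φ w x y := by
    rw [← sum_add_sum_compl B (fun w => ∑ x ∈ B, ∑ y ∈ B, m2 x y * nF φ w x y)]
    ring
  have hcyc : ∑ w ∈ B, ∑ x ∈ B, ∑ y ∈ B, nF φ w x y = 0 := by
    have h1 : ∑ w ∈ B, ∑ x ∈ B, ∑ y ∈ B, (nF φ w x y + nF φ x w y + nF φ y w x) = 0 :=
      sum_eq_zero fun w _ => sum_eq_zero fun x _ => sum_eq_zero fun y _ => nF_rel h w x y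
    simp only [sum_add_distrib] at h1
    have h2 : ∑ w ∈ B, ∑ x ∈ B, ∑ y ∈ B, nF φ x w y =
        ∑ w ∈ B, ∑ x ∈ B, ∑ y ∈ B, nF φ w x y := sum_comm
    have h3 : ∑ w ∈ B, ∑ x ∈ B, ∑ y ∈ B, nF φ y w x =
        ∑ w ∈ B, ∑ x ∈ B, ∑ y ∈ B, nF φ w x y := by
      have h4 : ∑ w ∈ B, ∑ x ∈ B, ∑ y ∈ B, nF φ y w x =
          ∑ w ∈ B, ∑ y ∈ B, ∑ x ∈ B, nF φ y w x := sum_congr rfl fun w _ => sum_comm
      rw [h4]
      exact sum_comm
    rw [h2, h3] at h1
    linarith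
  have h5 : ∑ w ∈ B, ∑ x ∈ B, ∑ y ∈ B, m2 x y * nF φ w x y =
      ∑ w ∈ B, ∑ x ∈ B, nF φ w x x := by
    have h6 : ∀ w ∈ B, ∀ x ∈ B, ∑ y ∈ B, m2 x y * nF φ w x y =
        ∑ y ∈ B, nF φ w x y + nF φ w x x := by
      intro w _ x hx
      have h7 : ∀ y ∈ B, m2 x y * nF φ w x y =
          nF φ w x y + (if x = y then nF φ w x x else 0) := by
        intro y _
        unfold m2
        by_cases a : x = y
        · subst a
          simp
          ring
        · simp [a]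
      rw [sum_congr rfl h7, sum_add_distrib, sum_ite_eq, if_pos hx]
    rw [sum_congr rfl fun w hw => sum_congr rfl fun x hx => h6 w hw x hx]
    simp only [sum_add_distrib]
    rw [hcyc, zero_add]
  have h8 : ∑ w, ∑ x ∈ B, ∑ y ∈ B, m2 x y * nF φ w x y =
      ∑ x ∈ B, ∑ y ∈ B, m2 x y * ∑ w, nF φ w x y := by
    rw [sum_comm]
    refine sum_congr rfl fun x _ => ?_
    rw [sum_comm]
    refine sum_congr rfl fun y _ => ?_
    rw [mul_sum]
  have h9 : ∑ x ∈ B, ∑ y ∈ B, m2 x y * ∑ w, nF φ w x y =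
      ∑ x ∈ B, ∑ y ∈ B, (nF φ x y y / 2 + nF φ y x x / 2) := by
    refine sum_congr rfl fun x _ => sum_congr rfl fun y _ => ?_
    by_cases a : x = y
    · subst a
      rw [cn2 h x, nF_diag h x]
      ring
    · rw [cn1 h x y a]
      unfold m2
      rw [if_neg a]
      ring
  have h10 : ∑ x ∈ B, ∑ y ∈ B, nF φ y x x / 2 = ∑ x ∈ B, ∑ y ∈ B, nF φ x y y / 2 := sum_comm
  have h11 : ∑ x ∈ B, ∑ y ∈ B, (nF φ x y y / 2 + nF φ y x x / 2) =
      ∑ x ∈ B, ∑ y ∈ B, nF φ x y y := by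
    simp only [sum_add_distrib]
    rw [h10, ← sum_add_distrib]
    refine sum_congr rfl fun x _ => ?_
    rw [← sum_add_distrib]
    exact sum_congr rfl fun y _ => by ring
  rw [hsplit, h5, h8, h9, h11, sub_self]

theorem cnb : CNBStmt := fun _ _ h =>
  ⟨cn1 h, cn2 h, cn3 h, cn4 h⟩

end Pool.Agent.BSE.H68
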