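import Pool.Agent.Helper68_BSE.Kit

/-!
# MP_3b0ba7_pr, stage 3: row E1B (helper68)
-/

set_option autoImplicit false

namespace Pool.Agent.BSE.H68

open Finset

theorem e1b : E1BStmt := by
  intro n B φ hφ
  rcases Nat.eq_zero_or_pos n with hn | hn
  · subst hn
    have h1 : (Bᶜ : Finset (Fin 0)) = ∅ := by
      ext x
      exact x.elim0
    rw [h1]
    simp
  have hn' : (1 : ℝ) ≤ (n : ℝ) := by exact_mod_cast hn
  -- the difference terms
  have hbc : ∀ y z : Fin n, vb B (fun x => nF φ y x z - nF φ z x y) =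
      2 * vb B (fun x => nF φ y x z) + 2 * vb B (fun x => nF φ z x y) -
        vb B (fun x => nF φ x y z) := by
    intro y z
    rw [vb_para]
    have h1 : (fun x => nF φ y x z + nF φ z x y) = fun x => (-1) * nF φ x y z := by
      funext x
      linarith [nF_rel hφ x y z]
    rw [h1, vb_smul]
    norm_num
  have hsw : ∑ y ∈ Bᶜ, ∑ z ∈ Bᶜ, vb B (fun x => nF φ z x y) =
      ∑ y ∈ Bᶜ, ∑ z ∈ Bᶜ, vb B (fun x => nF φ y x z) := sum_comm
  have hyy : ∀ y : Fin n, vb B (fun x => nF φ y x y) = 1 / 4 * vb B (fun x => nF φ x y y) := by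
    intro y
    have h1 : (fun x => nF φ y x y) = fun x => (-1 / 2) * nF φ x y y := by
      funext x
      rw [nF_xzx hφ y x]
      ring
    rw [h1, vb_smul]
    norm_num
  have h1 : ∑ y ∈ Bᶜ, ∑ z ∈ Bᶜ, (3 / 4 * vb B (fun x => nF φ x y z) +
      1 / 12 * vb B (fun x => nF φ y x z - nF φ z x y)) =
      ∑ y ∈ Bᶜ, ∑ z ∈ Bᶜ, (2 / 3 * vb B (fun x => nF φ x y z) +
        1 / 3 * vb B (fun x => nF φ y x z)) := by
    have h2 : ∑ y ∈ Bᶜ, ∑ z ∈ Bᶜ, (3 / 4 * vb B (fun x => nF φ x y z) +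
        1 / 12 * vb B (fun x => nF φ y x z - nF φ z x y)) =
        ∑ y ∈ Bᶜ, ∑ z ∈ Bᶜ, (2 / 3 * vb B (fun x => nF φ x y z) +
          1 / 6 * vb B (fun x => nF φ y x z)) +
        1 / 6 * ∑ y ∈ Bᶜ, ∑ z ∈ Bᶜ, vb B (fun x => nF φ z x y) := by
      rw [mul_sum, ← sum_add_distrib]
      refine sum_congr rfl fun y _ => ?_
      rw [mul_sum, ← sum_add_distrib]
      refine sum_congr rfl fun z _ => ?_
      rw [hbc]
      ring
    rw [h2, hsw, mul_sum, ← sum_add_distrib]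
    refine sum_congr rfl fun y _ => ?_
    rw [mul_sum, ← sum_add_distrib]
    refine sum_congr rfl fun z _ => ?_
    ring
  rw [h1]
  have h3 : (3 / 2 + 3 / (4 * (n : ℝ))) * ∑ y ∈ Bᶜ, vb B (fun x => nF φ x y y) =
      ∑ y ∈ Bᶜ, ∑ z ∈ Bᶜ, (if y = z then
        (3 / 2 + 3 / (4 * (n : ℝ))) * vb B (fun x => nF φ x y y) else 0) := by
    rw [mul_sum]
    refine sum_congr rfl fun y hy => ?_
    rw [sum_ite_eq, if_pos hy]
  rw [h3, ← sum_add_distrib]
  refine sum_le_sum fun y _ => ?_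
  rw [← sum_add_distrib]
  refine sum_le_sum fun z _ => ?_
  have ha := vb_nonneg B (fun x => nF φ x y z)
  have hb := vb_nonneg B (fun x => nF φ y x z)
  by_cases hyz : y = z
  · subst hyz
    have hK : 3 / (4 * (n : ℝ)) ≤ 3 / 4 := by
      rw [div_le_div_iff₀ (by positivity) (by norm_num)]
      linarith
    unfold m2
    rw [if_pos rfl, if_pos rfl, hyy y]
    have h5 := mul_le_mul_of_nonneg_right hK ha
    linarith
  · unfold m2
    rw [if_neg hyz, if_neg hyz]
    linarith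

end Pool.Agent.BSE.H68
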