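import Pool.Agent.Helper68_BSE.Kit

/-!
# MP_3b0ba7_pr, stage 3: row Q2B (helper68)
-/

set_option autoImplicit false

namespace Pool.Agent.BSE.H68

open Finset

variable {n : ℕ}

/-- sum over `B²` of a term and of a diagonal term -/
theorem sum2_diag (B : Finset (Fin n)) (f g : Fin n → Fin n → ℝ) :
    ∑ x ∈ B, ∑ y ∈ B, (f x y + (if x = y then g x y else 0)) =
      ∑ x ∈ B, ∑ y ∈ B, f x y + ∑ x ∈ B, g x x := by
  rw [← sum_add_distrib]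
  refine sum_congr rfl fun x hx => ?_
  rw [sum_add_distrib, sum_ite_eq, if_pos hx]

theorem q2b : Q2BStmt := by
  intro n B hB a k ha hk q hq
  have hc : (0 : ℝ) < B.card := by exact_mod_cast hB.card_pos
  obtain ⟨β, hβ⟩ : ∃ β : ℝ, β = B.card := ⟨_, rfl⟩
  rw [← hβ] at hc hq
  have hkd : ∀ x, k x x = 0 := fun x => by linarith [hk x x]
  -- basic sums
  obtain ⟨Saa, hSaa⟩ : ∃ s : ℝ, s = ∑ x ∈ B, ∑ y ∈ B, a x y ^ 2 := ⟨_, rfl⟩
  obtain ⟨Skk, hSkk⟩ : ∃ s : ℝ, s = ∑ x ∈ B, ∑ y ∈ B, k x y ^ 2 := ⟨_, rfl⟩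
  obtain ⟨D, hD⟩ : ∃ s : ℝ, s = ∑ x ∈ B, a x x ^ 2 := ⟨_, rfl⟩
  obtain ⟨D1, hD1⟩ : ∃ s : ℝ, s = ∑ x ∈ B, a x x := ⟨_, rfl⟩
  obtain ⟨Sa, hSa⟩ : ∃ s : ℝ, s = ∑ x ∈ B, ∑ y ∈ B, a x y := ⟨_, rfl⟩
  have hak : ∑ x ∈ B, ∑ y ∈ B, a x y * k x y = 0 := by
    have h1 : ∑ x ∈ B, ∑ y ∈ B, a x y * k x y = ∑ x ∈ B, ∑ y ∈ B, a y x * k y x := sum_comm
    have h2 : ∑ x ∈ B, ∑ y ∈ B, a y x * k y x = -∑ x ∈ B, ∑ y ∈ B, a x y * k x y := by
      rw [← sum_neg_distrib]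
      refine sum_congr rfl fun x _ => ?_
      rw [← sum_neg_distrib]
      refine sum_congr rfl fun y _ => ?_
      rw [ha y x, hk y x]
      ring
    linarith
  have hk0 : ∑ x ∈ B, ∑ y ∈ B, k x y = 0 := by
    have h1 : ∑ x ∈ B, ∑ y ∈ B, k x y = ∑ x ∈ B, ∑ y ∈ B, k y x := sum_comm
    have h2 : ∑ x ∈ B, ∑ y ∈ B, k y x = -∑ x ∈ B, ∑ y ∈ B, k x y := by
      rw [← sum_neg_distrib]
      refine sum_congr rfl fun x _ => ?_
      rw [← sum_neg_distrib]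
      exact sum_congr rfl fun y _ => hk y x
    linarith
  -- A
  have hA : ∑ x ∈ B, ∑ y ∈ B, m2 x y * a x y = Sa + D1 := by
    rw [hSa, hD1, ← sum2_diag B a a]
    refine sum_congr rfl fun x _ => sum_congr rfl fun y _ => ?_
    unfold m2
    split_ifs <;> ring
  have hA2 : ∑ x ∈ B, ∑ y ∈ B, m2 x y * (-(a x y) / 2 + k x y) = -(Sa + D1) / 2 := by
    have h1 : ∑ x ∈ B, ∑ y ∈ B, m2 x y * (-(a x y) / 2 + k x y) =
        ∑ x ∈ B, ∑ y ∈ B, ((-(1 / 2)) * (m2 x y * a x y) + k x y) +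
          ∑ x ∈ B, ∑ y ∈ B, (if x = y then k x y else 0) := by
      rw [← sum_add_distrib]
      refine sum_congr rfl fun x _ => ?_
      rw [← sum_add_distrib]
      refine sum_congr rfl fun y _ => ?_
      unfold m2
      split_ifs <;> ring
    have h2 : ∑ x ∈ B, ∑ y ∈ B, (if x = y then k x y else 0) = 0 := by
      refine sum_eq_zero fun x _ => sum_eq_zero fun y _ => ?_
      split_ifs with h3
      · rw [h3]
        exact hkd y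
      · rfl
    rw [h1, h2, add_zero]
    simp only [sum_add_distrib, ← mul_sum]
    rw [hA, hk0]
    ring
  -- the squares
  have hS : ∑ x ∈ B, ∑ y ∈ B, m2 x y * (a x y ^ 2 + 2 * (-(a x y) / 2 + k x y) ^ 2) =
      3 / 2 * Saa + 3 / 2 * D + 2 * Skk := by
    have h1 : ∑ x ∈ B, ∑ y ∈ B, m2 x y * (a x y ^ 2 + 2 * (-(a x y) / 2 + k x y) ^ 2) =
        ∑ x ∈ B, ∑ y ∈ B, ((3 / 2 * a x y ^ 2 + 2 * k x y ^ 2 - 2 * (a x y * k x y)) +
          (if x = y then 3 / 2 * a x y ^ 2 else 0)) := by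
      refine sum_congr rfl fun x _ => sum_congr rfl fun y _ => ?_
      unfold m2
      split_ifs with h2
      · subst h2
        rw [hkd x]
        ring
      · ring
    rw [h1, sum2_diag B _ (fun x y => 3 / 2 * a x y ^ 2)]
    simp only [sum_add_distrib, sum_sub_distrib, ← mul_sum]
    rw [hak, ← hSaa, ← hSkk, ← hD]
    ring
  -- the variances
  have hV : ∑ y ∈ B, (3 / 2 * vb B (fun x => -(a x y) / 2 + k x y) +
      1 / 6 * vb B (fun x => (-(a y x) / 2 + k y x) - a x y)) =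
      3 / 4 * Saa + 5 / 3 * Skk -
        (∑ y ∈ B, (3 / 4 * (∑ x ∈ B, a x y) ^ 2 - (∑ x ∈ B, a x y) * (∑ x ∈ B, k x y) +
          5 / 3 * (∑ x ∈ B, k x y) ^ 2)) / β := by
    have h1 : ∀ y : Fin n, 3 / 2 * vb B (fun x => -(a x y) / 2 + k x y) +
        1 / 6 * vb B (fun x => (-(a y x) / 2 + k y x) - a x y) =
        3 / 4 * ∑ x ∈ B, a x y ^ 2 + 5 / 3 * ∑ x ∈ B, k x y ^ 2 - ∑ x ∈ B, a x y * k x y -
        (3 / 4 * (∑ x ∈ B, a x y) ^ 2 - (∑ x ∈ B, a x y) * (∑ x ∈ B, k x y) +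
          5 / 3 * (∑ x ∈ B, k x y) ^ 2) / β := by
      intro y
      have e0 : (fun x => (-(a y x) / 2 + k y x) - a x y) =
          fun x => -(3 / 2) * a x y - k x y := by
        funext x
        rw [ha y x, hk y x]
        ring
      rw [e0]
      unfold vb
      have e1 : ∑ x ∈ B, (-(a x y) / 2 + k x y) ^ 2 =
          1 / 4 * ∑ x ∈ B, a x y ^ 2 + ∑ x ∈ B, k x y ^ 2 - ∑ x ∈ B, a x y * k x y := by
        rw [mul_sum, ← sum_add_distrib, ← sum_sub_distrib]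
        exact sum_congr rfl fun x _ => by ring
      have e2 : ∑ x ∈ B, (-(3 / 2) * a x y - k x y) ^ 2 =
          9 / 4 * ∑ x ∈ B, a x y ^ 2 + ∑ x ∈ B, k x y ^ 2 + 3 * ∑ x ∈ B, a x y * k x y := by
        rw [mul_sum, mul_sum, ← sum_add_distrib, ← sum_add_distrib]
        exact sum_congr rfl fun x _ => by ring
      have e3 : ∑ x ∈ B, (-(a x y) / 2 + k x y) =
          -(1 / 2) * ∑ x ∈ B, a x y + ∑ x ∈ B, k x y := by
        rw [mul_sum, ← sum_add_distrib]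
        exact sum_congr rfl fun x _ => by ring
      have e4 : ∑ x ∈ B, (-(3 / 2) * a x y - k x y) =
          -(3 / 2) * ∑ x ∈ B, a x y - ∑ x ∈ B, k x y := by
        rw [mul_sum, ← sum_sub_distrib]
      rw [e1, e2, e3, e4, ← hβ]
      field_simp
      ring
    have h3 : ∑ y ∈ B, ∑ x ∈ B, a x y ^ 2 = Saa := by rw [hSaa]; exact sum_comm
    have h4 : ∑ y ∈ B, ∑ x ∈ B, k x y ^ 2 = Skk := by rw [hSkk]; exact sum_comm
    have h5 : ∑ y ∈ B, ∑ x ∈ B, a x y * k x y = 0 := by rw [sum_comm]; exact hak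
    rw [sum_congr rfl fun y _ => h1 y]
    rw [sum_sub_distrib, sum_sub_distrib, sum_add_distrib, ← mul_sum, ← mul_sum, h3, h4, h5,
      sum_div]
    ring
  -- the left side
  have hcard : ∑ x ∈ B, ∑ y ∈ B, (1 : ℝ) = β ^ 2 := by
    simp only [sum_const, nsmul_eq_mul, mul_one]
    rw [hβ]
    ring
  have hL : ∑ x ∈ B, ∑ y ∈ B, (if x = y then 0 else (a x y - q) ^ 2) =
      Saa - 2 * q * Sa + q ^ 2 * β ^ 2 - (D - 2 * q * D1 + q ^ 2 * β) := by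
    have h1 : ∑ x ∈ B, ∑ y ∈ B, (if x = y then 0 else (a x y - q) ^ 2) =
        ∑ x ∈ B, ∑ y ∈ B, ((a x y ^ 2 - (2 * q) * a x y + q ^ 2 * 1) +
          (if x = y then -(a x y - q) ^ 2 else 0)) := by
      refine sum_congr rfl fun x _ => sum_congr rfl fun y _ => ?_
      split_ifs <;> ring
    rw [h1, sum2_diag B _ (fun x y => -(a x y - q) ^ 2)]
    have h2 : ∑ x ∈ B, -(a x x - q) ^ 2 = -(D - 2 * q * D1 + q ^ 2 * β) := by
      have h3 : ∑ x ∈ B, -(a x x - q) ^ 2 =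
          -(∑ x ∈ B, a x x ^ 2 - (2 * q) * ∑ x ∈ B, a x x + q ^ 2 * ∑ x ∈ B, (1 : ℝ)) := by
        rw [mul_sum, mul_sum, ← sum_sub_distrib, ← sum_add_distrib, ← sum_neg_distrib]
        exact sum_congr rfl fun x _ => by ring
      rw [h3, ← hD, ← hD1]
      simp only [sum_const, nsmul_eq_mul, mul_one]
      rw [hβ]
    rw [h2]
    simp only [sum_add_distrib, sum_sub_distrib, ← mul_sum]
    rw [hcard, ← hSaa, ← hSa]
    ring
  -- the square form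
  have hpos : 0 ≤ 9 / 4 * ∑ x ∈ B, (a x x - q) ^ 2 +
      (∑ y ∈ B, (3 / 4 * (∑ x ∈ B, a x y - β * q) ^ 2 -
        (∑ x ∈ B, a x y - β * q) * (∑ x ∈ B, k x y) + 5 / 3 * (∑ x ∈ B, k x y) ^ 2)) / β := by
    have h1 : 0 ≤ ∑ x ∈ B, (a x x - q) ^ 2 := sum_nonneg fun x _ => sq_nonneg _
    have h2 : 0 ≤ ∑ y ∈ B, (3 / 4 * (∑ x ∈ B, a x y - β * q) ^ 2 -
        (∑ x ∈ B, a x y - β * q) * (∑ x ∈ B, k x y) + 5 / 3 * (∑ x ∈ B, k x y) ^ 2) := by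
      refine sum_nonneg fun y _ => ?_
      nlinarith [sq_nonneg (∑ x ∈ B, a x y - β * q - 2 / 3 * ∑ x ∈ B, k x y),
        sq_nonneg (∑ x ∈ B, k x y)]
    have h3 := div_nonneg h2 hc.le
    linarith
  have hd : ∑ x ∈ B, (a x x - q) ^ 2 = D - 2 * q * D1 + q ^ 2 * β := by
    have h3 : ∑ x ∈ B, (a x x - q) ^ 2 =
        ∑ x ∈ B, a x x ^ 2 - (2 * q) * ∑ x ∈ B, a x x + q ^ 2 * ∑ x ∈ B, (1 : ℝ) := by
      rw [mul_sum, mul_sum, ← sum_sub_distrib, ← sum_add_distrib]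
      exact sum_congr rfl fun x _ => by ring
    rw [h3, ← hD, ← hD1]
    simp only [sum_const, nsmul_eq_mul, mul_one]
    rw [hβ]
  obtain ⟨W, hW⟩ : ∃ s : ℝ, s = ∑ y ∈ B, (3 / 4 * (∑ x ∈ B, a x y) ^ 2 -
    (∑ x ∈ B, a x y) * (∑ x ∈ B, k x y) + 5 / 3 * (∑ x ∈ B, k x y) ^ 2) := ⟨_, rfl⟩
  have hr : ∑ y ∈ B, (3 / 4 * (∑ x ∈ B, a x y - β * q) ^ 2 -
        (∑ x ∈ B, a x y - β * q) * (∑ x ∈ B, k x y) + 5 / 3 * (∑ x ∈ B, k x y) ^ 2) =
      W - 3 / 2 * β * q * Sa + 3 / 4 * β ^ 3 * q ^ 2 := by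
    have h1 : ∑ y ∈ B, (3 / 4 * (∑ x ∈ B, a x y - β * q) ^ 2 -
        (∑ x ∈ B, a x y - β * q) * (∑ x ∈ B, k x y) + 5 / 3 * (∑ x ∈ B, k x y) ^ 2) =
        W - (3 / 2 * β * q) * ∑ y ∈ B, ∑ x ∈ B, a x y + (3 / 4 * β ^ 2 * q ^ 2) *
          ∑ y ∈ B, (1 : ℝ) + (β * q) * ∑ y ∈ B, ∑ x ∈ B, k x y := by
      rw [hW, mul_sum, mul_sum, mul_sum, ← sum_sub_distrib, ← sum_add_distrib,
        ← sum_add_distrib]
      exact sum_congr rfl fun y _ => by ring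
    have h2 : ∑ y ∈ B, ∑ x ∈ B, a x y = Sa := by rw [hSa]; exact sum_comm
    have h3 : ∑ y ∈ B, ∑ x ∈ B, k x y = 0 := by rw [sum_comm]; exact hk0
    rw [h1, h2, h3]
    simp only [sum_const, nsmul_eq_mul, mul_one]
    rw [← hβ]
    ring
  have hq' : Sa + D1 = q * (β * (β + 1)) := by
    rw [hq, hA]
    field_simp
  rw [hd, hr] at hpos
  rw [← hβ, hA, hA2, hS, hV, hL, ← hSkk, ← hW]
  have hSa' : Sa = q * (β * (β + 1)) - D1 := by linarith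
  have key : (3 / 2 * Saa + 3 / 2 * D + 2 * Skk -
      ((Sa + D1) ^ 2 + 2 * (-(Sa + D1) / 2) ^ 2) / (β * (β + 1)) -
      (3 / 4 * Saa + 5 / 3 * Skk - W / β)) -
      (3 / 4 * (Saa - 2 * q * Sa + q ^ 2 * β ^ 2 - (D - 2 * q * D1 + q ^ 2 * β)) +
        1 / 3 * Skk) =
      9 / 4 * (D - 2 * q * D1 + q ^ 2 * β) +
        (W - 3 / 2 * β * q * Sa + 3 / 4 * β ^ 3 * q ^ 2) / β := by
    rw [hSa']
    field_simp
    ring
  linarith

end Pool.Agent.BSE.H68
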