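import Pool.Agent.Helper68_BSE.Kit

/-!
# MP_3b0ba7_pr, stage 3: row Q3B (helper68)
-/

set_option autoImplicit false

namespace Pool.Agent.BSE.H68

open Finset

variable {n : ℕ}

/-- the sum of the squares over `B³` -/
theorem q3_m6 (B : Finset (Fin n)) {φ : Fin n → Fin n → Fin n → ℝ} (h : Mix3 φ) :
    ∑ x ∈ B, ∑ y ∈ B, ∑ z ∈ B, m6 x y z * nF φ x y z ^ 2 =
      ∑ x ∈ B, ∑ y ∈ B, ∑ z ∈ B, nF φ x y z ^ 2 +
        3 / 2 * ∑ x ∈ B, ∑ y ∈ B, nF φ x y y ^ 2 := by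
  have h1 : ∀ x ∈ B, ∑ y ∈ B, ∑ z ∈ B, m6 x y z * nF φ x y z ^ 2 =
      ∑ y ∈ B, ∑ z ∈ B, nF φ x y z ^ 2 + ∑ z ∈ B, nF φ x x z ^ 2 + ∑ y ∈ B, nF φ x y y ^ 2 +
        ∑ y ∈ B, nF φ x y x ^ 2 := by
    intro x hx
    have h2 : ∀ y ∈ B, ∑ z ∈ B, m6 x y z * nF φ x y z ^ 2 =
        ∑ z ∈ B, nF φ x y z ^ 2 + (if x = y then ∑ z ∈ B, nF φ x x z ^ 2 else 0) +
          nF φ x y y ^ 2 + nF φ x y x ^ 2 := by
      intro y hy
      have h3 : ∀ z ∈ B, m6 x y z * nF φ x y z ^ 2 =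
          nF φ x y z ^ 2 + (if x = y then nF φ x x z ^ 2 else 0) +
            (if y = z then nF φ x y y ^ 2 else 0) + (if x = z then nF φ x y x ^ 2 else 0) := by
        intro z _
        have hd := nF_diag h x
        unfold m6
        by_cases a1 : x = y
        · subst a1
          by_cases a2 : x = z
          · subst a2
            simp [hd]
          · simp [a2]
            ring
        · by_cases a2 : y = z
          · subst a2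
            simp [a1]
            ring
          · by_cases a3 : x = z
            · subst a3
              simp [a1, a2]
              ring
            · simp [a1, a2, a3]
      rw [sum_congr rfl h3, sum_add_distrib, sum_add_distrib, sum_add_distrib,
        sum_ite_eq, sum_ite_eq, if_pos hy, if_pos hx]
      congr 2
      congr 1
      by_cases a1 : x = y
      · simp [a1]
      · simp [a1]
    rw [sum_congr rfl h2, sum_add_distrib, sum_add_distrib, sum_add_distrib, sum_ite_eq,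
      if_pos hx]
  rw [sum_congr rfl h1, sum_add_distrib, sum_add_distrib, sum_add_distrib]
  have h4 : ∑ x ∈ B, ∑ z ∈ B, nF φ x x z ^ 2 = 1 / 4 * ∑ x ∈ B, ∑ y ∈ B, nF φ x y y ^ 2 := by
    rw [sum_comm, mul_sum]
    refine sum_congr rfl fun x _ => ?_
    rw [mul_sum]
    refine sum_congr rfl fun y _ => ?_
    rw [nF_xxz h y x]
    ring
  have h5 : ∑ x ∈ B, ∑ y ∈ B, nF φ x y x ^ 2 = 1 / 4 * ∑ x ∈ B, ∑ y ∈ B, nF φ x y y ^ 2 := by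
    rw [sum_comm, mul_sum]
    refine sum_congr rfl fun x _ => ?_
    rw [mul_sum]
    refine sum_congr rfl fun y _ => ?_
    rw [nF_xzx h y x]
    ring
  rw [h4, h5]
  ring

/-- the sum of the squares of the differences -/
theorem q3_diff (B : Finset (Fin n)) {φ : Fin n → Fin n → Fin n → ℝ} (h : Mix3 φ) :
    ∑ y ∈ B, ∑ z ∈ B, ∑ x ∈ B, (nF φ y x z - nF φ z x y) ^ 2 =
      3 * ∑ x ∈ B, ∑ y ∈ B, ∑ z ∈ B, nF φ x y z ^ 2 := by
  have h1 : ∀ y z x : Fin n, (nF φ y x z - nF φ z x y) ^ 2 =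
      2 * nF φ y x z ^ 2 + 2 * nF φ z x y ^ 2 - nF φ x y z ^ 2 := by
    intro y z x
    have h2 : nF φ x y z = -(nF φ y x z + nF φ z x y) := by linarith [nF_rel h x y z]
    rw [h2]
    ring
  have ha : ∑ y ∈ B, ∑ z ∈ B, ∑ x ∈ B, nF φ y x z ^ 2 =
      ∑ x ∈ B, ∑ y ∈ B, ∑ z ∈ B, nF φ x y z ^ 2 :=
    sum_congr rfl fun y _ => sum_comm
  have hb : ∑ y ∈ B, ∑ z ∈ B, ∑ x ∈ B, nF φ z x y ^ 2 =
      ∑ x ∈ B, ∑ y ∈ B, ∑ z ∈ B, nF φ x y z ^ 2 := by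
    rw [sum_comm]
    exact sum_congr rfl fun z _ => sum_comm
  have hc : ∑ y ∈ B, ∑ z ∈ B, ∑ x ∈ B, nF φ x y z ^ 2 =
      ∑ x ∈ B, ∑ y ∈ B, ∑ z ∈ B, nF φ x y z ^ 2 := by
    have h3 : ∑ y ∈ B, ∑ z ∈ B, ∑ x ∈ B, nF φ x y z ^ 2 =
        ∑ y ∈ B, ∑ x ∈ B, ∑ z ∈ B, nF φ x y z ^ 2 := sum_congr rfl fun y _ => sum_comm
    rw [h3]
    exact sum_comm
  calc ∑ y ∈ B, ∑ z ∈ B, ∑ x ∈ B, (nF φ y x z - nF φ z x y) ^ 2
      = 2 * ∑ y ∈ B, ∑ z ∈ B, ∑ x ∈ B, nF φ y x z ^ 2 +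
        2 * ∑ y ∈ B, ∑ z ∈ B, ∑ x ∈ B, nF φ z x y ^ 2 -
          ∑ y ∈ B, ∑ z ∈ B, ∑ x ∈ B, nF φ x y z ^ 2 := by
        rw [mul_sum, mul_sum, ← sum_add_distrib, ← sum_sub_distrib]
        refine sum_congr rfl fun y _ => ?_
        rw [mul_sum, mul_sum, ← sum_add_distrib, ← sum_sub_distrib]
        refine sum_congr rfl fun z _ => ?_
        rw [mul_sum, mul_sum, ← sum_add_distrib, ← sum_sub_distrib]
        exact sum_congr rfl fun x _ => h1 y z x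
    _ = 3 * ∑ x ∈ B, ∑ y ∈ B, ∑ z ∈ B, nF φ x y z ^ 2 := by
        rw [ha, hb, hc]
        ring

theorem q3b : Q3BStmt := by
  intro n B _ φ h
  have hm := q3_m6 B h
  have hd := q3_diff B h
  have hc : ∑ y ∈ B, ∑ z ∈ B, ∑ x ∈ B, nF φ x y z ^ 2 =
      ∑ x ∈ B, ∑ y ∈ B, ∑ z ∈ B, nF φ x y z ^ 2 := by
    have h3 : ∑ y ∈ B, ∑ z ∈ B, ∑ x ∈ B, nF φ x y z ^ 2 =
        ∑ y ∈ B, ∑ x ∈ B, ∑ z ∈ B, nF φ x y z ^ 2 := sum_congr rfl fun y _ => sum_comm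
    rw [h3]
    exact sum_comm
  have hg : ∑ y ∈ B, ∑ x ∈ B, nF φ x y y ^ 2 = ∑ x ∈ B, ∑ y ∈ B, nF φ x y y ^ 2 := sum_comm
  -- expansion of the variances
  have e1 : ∑ y ∈ B, ∑ z ∈ B, (3 / 4 * vb B (fun x => nF φ x y z) +
      1 / 12 * vb B (fun x => nF φ y x z - nF φ z x y)) =
      3 / 4 * ∑ y ∈ B, ∑ z ∈ B, ∑ x ∈ B, nF φ x y z ^ 2 -
        3 / (4 * (B.card : ℝ)) * ∑ y ∈ B, ∑ z ∈ B, (∑ x ∈ B, nF φ x y z) ^ 2 +
      (1 / 12 * ∑ y ∈ B, ∑ z ∈ B, ∑ x ∈ B, (nF φ y x z - nF φ z x y) ^ 2 -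
        1 / (12 * (B.card : ℝ)) *
          ∑ y ∈ B, ∑ z ∈ B, (∑ x ∈ B, (nF φ y x z - nF φ z x y)) ^ 2) := by
    simp only [mul_sum]
    simp only [← sum_add_distrib, ← sum_sub_distrib]
    refine sum_congr rfl fun y _ => ?_
    refine sum_congr rfl fun z _ => ?_
    unfold vb
    simp only [← mul_sum]
    ring
  have e2 : ∑ y ∈ B, vb B (fun x => nF φ x y y) =
      ∑ y ∈ B, ∑ x ∈ B, nF φ x y y ^ 2 - (∑ y ∈ B, (∑ x ∈ B, nF φ x y y) ^ 2) / B.card := by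
    rw [sum_div, ← sum_sub_distrib]
    rfl
  rw [hm, e1, e2, hc, hd, hg]
  ring

end Pool.Agent.BSE.H68
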