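import Pool.Agent.BSE.Stmts5

/-!
# MP_3b0ba7_pr, stage 3: tools for E1B, Q2B, Q3B, CNB (helper68)
-/

set_option autoImplicit false

namespace Pool.Agent.BSE.H68

open Finset

variable {n : ℕ}

theorem vb_nonneg (B : Finset (Fin n)) (g : Fin n → ℝ) : 0 ≤ vb B g := by
  unfold vb
  rcases B.eq_empty_or_nonempty with h | h
  · subst h
    simp
  · have hc : (0 : ℝ) < B.card := by exact_mod_cast h.card_pos
    have h1 := sq_sum_le_card_mul_sum_sq (s := B) (f := g)
    rw [sub_nonneg, div_le_iff₀ hc]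
    linarith

theorem vb_para (B : Finset (Fin n)) (b c : Fin n → ℝ) :
    vb B (fun x => b x - c x) = 2 * vb B b + 2 * vb B c - vb B (fun x => b x + c x) := by
  unfold vb
  have h1 : ∑ x ∈ B, (b x - c x) ^ 2 =
      2 * ∑ x ∈ B, b x ^ 2 + 2 * ∑ x ∈ B, c x ^ 2 - ∑ x ∈ B, (b x + c x) ^ 2 := by
    rw [mul_sum, mul_sum, ← sum_add_distrib, ← sum_sub_distrib]
    exact sum_congr rfl fun x _ => by ring
  have h2 : ∑ x ∈ B, (b x - c x) = ∑ x ∈ B, b x - ∑ x ∈ B, c x := sum_sub_distrib _ _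
  have h3 : ∑ x ∈ B, (b x + c x) = ∑ x ∈ B, b x + ∑ x ∈ B, c x := sum_add_distrib
  rw [h1, h2, h3]
  ring

theorem vb_smul (B : Finset (Fin n)) (t : ℝ) (g : Fin n → ℝ) :
    vb B (fun x => t * g x) = t ^ 2 * vb B g := by
  unfold vb
  have h1 : ∑ x ∈ B, (t * g x) ^ 2 = t ^ 2 * ∑ x ∈ B, g x ^ 2 := by
    rw [mul_sum]
    exact sum_congr rfl fun x _ => by ring
  rw [h1, ← mul_sum]
  ring

theorem m6_swap (i j k : Fin n) : m6 i j k = m6 i k j := by
  unfold m6
  by_cases h1 : i = j <;> by_cases h2 : j = k <;> by_cases h3 : i = k <;>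
    simp_all [eq_comm]

theorem m6_cyc (i j k : Fin n) : m6 i j k = m6 j k i := by
  unfold m6
  by_cases h1 : i = j <;> by_cases h2 : j = k <;> by_cases h3 : i = k <;>
    simp_all [eq_comm]

theorem m6_pos (i j k : Fin n) : 0 < m6 i j k := by
  unfold m6
  have h1 : (0 : ℝ) ≤ if i = j then 1 else 0 := by split_ifs <;> norm_num
  have h2 : (0 : ℝ) ≤ if j = k then 1 else 0 := by split_ifs <;> norm_num
  have h3 : (0 : ℝ) ≤ if i = k then 1 else 0 := by split_ifs <;> norm_num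
  have h4 : (0 : ℝ) ≤ if i = j ∧ j = k then 2 else 0 := by split_ifs <;> norm_num
  linarith

variable {φ : Fin n → Fin n → Fin n → ℝ}

theorem m6_nF (φ : Fin n → Fin n → Fin n → ℝ) (i j k : Fin n) :
    m6 i j k * nF φ i j k = φ i j k := by
  unfold nF
  have := (m6_pos i j k).ne'
  field_simp

theorem nF_swap (h : Mix3 φ) (i j k : Fin n) : nF φ i j k = nF φ i k j := by
  unfold nF
  rw [h.1 i j k, m6_swap i j k]

theorem nF_cyc (h : Mix3 φ) (i j k : Fin n) : nF φ i j k + nF φ j k i + nF φ k i j = 0 := by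
  unfold nF
  rw [← m6_cyc i j k, m6_cyc k i j, ← add_div, ← add_div, h.2.1, zero_div]

/-- The cyclic relation in the form `F x y z + F y x z + F z x y = 0`. -/
theorem nF_rel (h : Mix3 φ) (x y z : Fin n) : nF φ x y z + nF φ y x z + nF φ z x y = 0 := by
  have h1 := nF_cyc h x y z
  rw [nF_swap h y z x] at h1
  exact h1

theorem nF_diag (h : Mix3 φ) (x : Fin n) : nF φ x x x = 0 := by
  have h1 := nF_cyc h x x x
  linarith

theorem nF_xxz (h : Mix3 φ) (x z : Fin n) : nF φ x x z = -(nF φ z x x) / 2 := by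
  have h1 := nF_cyc h x x z
  rw [nF_swap h x z x] at h1
  linarith

theorem nF_xzx (h : Mix3 φ) (x z : Fin n) : nF φ x z x = -(nF φ z x x) / 2 := by
  rw [nF_swap h x z x]
  exact nF_xxz h x z

end Pool.Agent.BSE.H68
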